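import Pool.Agent.Helper192.Dil.Defs
import Pool.Agent.Helper192.Dil.V

set_option autoImplicit false

namespace Pool.Agent.Results.MP_040564_an.NoDilation

open Pool.Agent.Helper192.Dil

universe u

/-- There are a UMD-Banach lattice `X` (a solid Banach space of complex functions on a countable set, isomorphic to a
Hilbert space) and a `C₀`-semigroup `T` of positive contractions on `X` which has no loose dilation, and hence no
strict dilation, in the class of all UMD spaces. -/
theorem result : ∃ (ι : Type) (X : Type) (_ : NormedAddCommGroup X) (_ : NormedSpace ℂ X) (_ : CompleteSpace X)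
    (ev : X →ₗ[ℂ] (ι → ℂ)) (T : ℝ → X →L[ℂ] X),
    Countable ι ∧ IsFunctionLattice ev ∧ IsUMD X ∧
    (∃ (F : Type) (_ : NormedAddCommGroup F) (_ : InnerProductSpace ℂ F) (_ : CompleteSpace F), Nonempty (X ≃L[ℂ] F)) ∧
    IsC0Semigroup T ∧ (∀ t, 0 ≤ t → ‖T t‖ ≤ 1) ∧
    (∀ t, 0 ≤ t → ∀ x, IsNonneg ev x → IsNonneg ev (T t x)) ∧
    ∀ (Y : Type u) [NormedAddCommGroup Y] [NormedSpace ℂ Y] [CompleteSpace Y], IsUMD Y →
      ¬ HasLooseDilation T Y ∧ ¬ HasStrictDilation T Y :=
  main_result

end Pool.Agent.Results.MP_040564_an.NoDilation
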