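import Mathlib
import Pool.Agent.Helper604.UMD.UmdX
import Pool.Agent.Helper604.UMD.Contra

open MeasureTheory FourierTransform SchwartzMap
open scoped ENNReal NNReal

namespace Pool.Agent.Results.MP_040564_an.RenormedLattice

universe u v w

/-- The symbol `-i sgn ξ` of the Hilbert transform. -/
noncomputable def hilbertSymbol (ξ : ℝ) : ℂ := -Complex.I * ((SignType.sign ξ : ℝ) : ℂ)

/-- The Hilbert transform of an `X`-valued Schwartz function: the Fourier multiplier with symbol `-i sgn ξ`. -/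
noncomputable def hilbertTransform {X : Type u} [NormedAddCommGroup X] [NormedSpace ℂ X] (f : 𝓢(ℝ, X)) : ℝ → X :=
  𝓕⁻ (fun ξ : ℝ => hilbertSymbol ξ • 𝓕 (f : ℝ → X) ξ)

/-- UMD space: the Hilbert transform is bounded for the norm of `L_2(ℝ; X)`. -/
def IsUMD (X : Type u) [NormedAddCommGroup X] [NormedSpace ℂ X] : Prop :=
  ∃ C : ℝ≥0, ∀ f : 𝓢(ℝ, X), eLpNorm (hilbertTransform f) 2 volume ≤ C * eLpNorm (f : ℝ → X) 2 volume

/-- `X` is, through `incl`, the complexification of the real Banach lattice `E`, with the norm of the modulus: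
every `z` is uniquely `a + i b`, and the norm of `a + i b` is the norm of its modulus `sup_θ (a cos θ + b sin θ)`. -/
structure IsComplexBanachLattice {E : Type u} {X : Type v} [NormedAddCommGroup E] [NormedSpace ℝ E] [Lattice E]
    [NormedAddCommGroup X] [NormedSpace ℂ X] (incl : E →ₗ[ℝ] X) : Prop where
  completeE : CompleteSpace E
  completeX : CompleteSpace X
  add_mono : ∀ a b c : E, a ≤ b → a + c ≤ b + c
  smul_nonneg : ∀ (r : ℝ) (a : E), 0 ≤ r → 0 ≤ a → 0 ≤ r • a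
  solid : ∀ a b : E, |a| ≤ |b| → ‖a‖ ≤ ‖b‖
  decomposition : ∀ z : X, ∃! p : E × E, z = incl p.1 + Complex.I • incl p.2
  norm_modulus : ∀ a b : E, ∃ m : E, IsLUB (Set.range fun θ : ℝ => Real.cos θ • a + Real.sin θ • b) m ∧
    ‖incl a + Complex.I • incl b‖ = ‖m‖

/-- `C_0`-semigroup of bounded operators. -/
structure IsC0Semigroup {X : Type u} [NormedAddCommGroup X] [NormedSpace ℂ X] (T : ℝ≥0 → X →L[ℂ] X) : Prop where
  zero : T 0 = ContinuousLinearMap.id ℂ X
  add : ∀ s t, T (s + t) = (T s).comp (T t)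
  continuous : ∀ x, Continuous fun t => T t x

/-- `C_0`-group of bounded operators. -/
structure IsC0Group {Y : Type u} [NormedAddCommGroup Y] [NormedSpace ℂ Y] (U : ℝ → Y →L[ℂ] Y) : Prop where
  zero : U 0 = ContinuousLinearMap.id ℂ Y
  add : ∀ s t, U (s + t) = (U s).comp (U t)
  continuous : ∀ y, Continuous fun t => U t y

/-- Loose dilation on some UMD space. -/
def HasLooseDilation {X : Type u} [NormedAddCommGroup X] [NormedSpace ℂ X] (T : ℝ≥0 → X →L[ℂ] X) : Prop :=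
  ∃ (Y : Type w) (_ : NormedAddCommGroup Y) (_ : NormedSpace ℂ Y), CompleteSpace Y ∧ IsUMD Y ∧
    ∃ (J : X →L[ℂ] Y) (Q : Y →L[ℂ] X) (U : ℝ → Y →L[ℂ] Y), IsC0Group U ∧ (∃ M : ℝ, ∀ t, ‖U t‖ ≤ M) ∧
      ∀ t : ℝ≥0, T t = Q.comp ((U t).comp J)

/-- Strict dilation on some UMD space. -/
def HasStrictDilation {X : Type u} [NormedAddCommGroup X] [NormedSpace ℂ X] (T : ℝ≥0 → X →L[ℂ] X) : Prop :=
  ∃ (Y : Type w) (_ : NormedAddCommGroup Y) (_ : NormedSpace ℂ Y), CompleteSpace Y ∧ IsUMD Y ∧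
    ∃ (J : X →L[ℂ] Y) (Q : Y →L[ℂ] X) (U : ℝ → Y →L[ℂ] Y), ‖J‖ ≤ 1 ∧ ‖Q‖ ≤ 1 ∧ IsC0Group U ∧
      (∀ t y, ‖U t y‖ = ‖y‖) ∧ ∀ t : ℝ≥0, T t = Q.comp ((U t).comp J)

lemma strict_loose {X : Type u} [NormedAddCommGroup X] [NormedSpace ℂ X] {T : ℝ≥0 → X →L[ℂ] X}
    (h : HasStrictDilation.{u, w} T) : HasLooseDilation.{u, w} T := by
  obtain ⟨Y, i1, i2, hc, hU, J, Q, U, _, _, hg, hiso, hT⟩ := h
  exact ⟨Y, i1, i2, hc, hU, J, Q, U, hg, ⟨1, fun t => ContinuousLinearMap.opNorm_le_bound _ zero_le_one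
    fun y => by rw [hiso, one_mul]⟩, hT⟩

/-- Some UMD-Banach lattice carries a `C_0`-semigroup of positive contractions that has neither a loose nor a strict
dilation in the class of all UMD spaces. -/
theorem result : ∃ (E X : Type) (_ : NormedAddCommGroup E) (_ : NormedSpace ℝ E) (_ : Lattice E)
    (_ : NormedAddCommGroup X) (_ : NormedSpace ℂ X) (incl : E →ₗ[ℝ] X) (T : ℝ≥0 → X →L[ℂ] X),
    IsComplexBanachLattice incl ∧ IsUMD X ∧ IsC0Semigroup T ∧ (∀ t, ‖T t‖ ≤ 1) ∧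
    (∀ t, ∀ a : E, 0 ≤ a → ∃ b : E, 0 ≤ b ∧ T t (incl a) = incl b) ∧
    ¬ HasLooseDilation.{0, w} T ∧ ¬ HasStrictDilation.{0, w} T := by
  have hno : ¬ HasLooseDilation.{0, w} Pool.Agent.Helper604.UMD.TC := by
    rintro ⟨Y, _, _, _, hU, J, Q, U, hg, ⟨M, hM⟩, hT⟩
    exact Pool.Agent.Helper604.UMD.no_dilation hU J Q U hg.zero hg.add hg.continuous hM hT
  refine ⟨Pool.Agent.Helper604.UMD.ER, Pool.Agent.Helper604.UMD.XC, inferInstance, inferInstance, inferInstance,
    inferInstance, inferInstance, Pool.Agent.Helper604.UMD.incl, Pool.Agent.Helper604.UMD.TC, ?_,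
    Pool.Agent.Helper604.UMD.umd_XC, ?_, Pool.Agent.Helper604.UMD.TC_norm, Pool.Agent.Helper604.UMD.TC_pos, hno,
    fun h => hno (strict_loose h)⟩
  · exact
      { completeE := inferInstance
        completeX := inferInstance
        add_mono := fun a b c h => add_le_add_left h c
        smul_nonneg := fun r a hr ha => smul_nonneg hr ha
        solid := fun a b h => HasSolidNorm.solid h
        decomposition := Pool.Agent.Helper604.UMD.decomp
        norm_modulus := Pool.Agent.Helper604.UMD.modulus }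
  · exact
      { zero := Pool.Agent.Helper604.UMD.TC_zero
        add := Pool.Agent.Helper604.UMD.TC_add
        continuous := Pool.Agent.Helper604.UMD.TC_cont }

end Pool.Agent.Results.MP_040564_an.RenormedLattice
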